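import Pool.Agent.H174.GP.StA
import Pool.Agent.H174.GP.StP
import Pool.Agent.H174.GP.StC
import Pool.Agent.H174.GP.StB

/-!
# Project GP (helper174): tail of `beta` (proof by helper230)
-/

open MeasureTheory ProbabilityTheory Finset Filter Topology

namespace Pool.Agent.H230.GP174

open Pool.Agent.H174.GP

lemma b3_pD_nonneg (D : ℕ) (σ : ℝ) : 0 ≤ pD D σ := by
  unfold pD
  positivity

lemma b3_pD_le_one (D : ℕ) (σ : ℝ) : pD D σ ≤ 1 := by
  unfold pD
  rw [div_le_one (by positivity)]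
  linarith

lemma b3_bn_nonneg (n k : ℕ) {p : ℝ} (h0 : 0 ≤ p) (h1 : p ≤ 1) : 0 ≤ bn n p k := by
  unfold bn
  have : 0 ≤ 1 - p := by linarith
  positivity

lemma b3_large (A : ℝ) : ∃ D0 : ℕ, ∀ D ≥ D0, A ^ 2 * Real.log D ≤ (D : ℝ) := by
  have h : Tendsto (fun x : ℝ => Real.log x / x) atTop (𝓝 0) := by
    have := Real.isLittleO_log_id_atTop.tendsto_div_nhds_zero
    simpa using this
  have h2 : Tendsto (fun D : ℕ => Real.log (D : ℝ) / (D : ℝ)) atTop (𝓝 0) :=
    h.comp tendsto_natCast_atTop_atTop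
  have hpos : (0 : ℝ) < 1 / (A ^ 2 + 1) := by positivity
  have h3 := (h2.eventually (Iio_mem_nhds hpos)).and (eventually_ge_atTop 1)
  obtain ⟨D0, hD0⟩ := eventually_atTop.1 h3
  refine ⟨D0, fun D hD => ?_⟩
  obtain ⟨h4, h5⟩ := hD0 D hD
  have hD1 : (1 : ℝ) ≤ D := by exact_mod_cast h5
  have hD' : (0 : ℝ) < D := by linarith
  have hL : 0 ≤ Real.log D := Real.log_nonneg hD1
  have h4' : Real.log (D : ℝ) / (D : ℝ) < 1 / (A ^ 2 + 1) := h4
  rw [div_lt_div_iff₀ hD' (by positivity)] at h4'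
  nlinarith

/-- the bound for one term -/
lemma b3_term (h1 : S_bin3) {s1 σ A : ℝ} (hs1 : 0 < s1) (hσ : 0 < σ) (hA : A = 3 / s1) {D n t b : ℕ}
    (hD : 2 ≤ D) (hDA : A ^ 2 * Real.log D ≤ (D : ℝ)) (hs : s1 ≤ σ * D) (hn : 1 ≤ n) (hnD : n ≤ D)
    (ht : 10 * Real.sqrt (Real.log D) * (D : ℝ) ^ (3 / 2 : ℝ) < |(t : ℝ) - D * (pD D σ * n)|)
    (hb : D * b ≤ t) :
    bn n (pD D σ) b * ((1 - Real.exp (-(2 * σ))) * Real.exp (-(2 * σ * ((t : ℝ) - D * b)))) ≤
      Real.exp (-(6 * Real.log D)) := by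
  have hD2 : (2 : ℝ) ≤ D := by exact_mod_cast hD
  have hD0 : (0 : ℝ) < D := by linarith
  have hL : 0 < Real.log D := Real.log_pos (by linarith)
  have hA0 : 0 < A := by rw [hA]; positivity
  have hn1 : (1 : ℝ) ≤ n := by exact_mod_cast hn
  have hn0 : (0 : ℝ) < n := by linarith
  have hnD' : (n : ℝ) ≤ D := by exact_mod_cast hnD
  have hbt : (D : ℝ) * b ≤ t := by exact_mod_cast hb
  have hp0 := b3_pD_nonneg D σ
  have hp1 := b3_pD_le_one D σ
  have hbn0 := b3_bn_nonneg n b hp0 hp1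
  have hbn := h1 (pD D σ) n b hp0 hp1 hn
  have hr0 : 0 ≤ 1 - Real.exp (-(2 * σ)) := by
    have : Real.exp (-(2 * σ)) ≤ 1 := Real.exp_le_one_iff.2 (by linarith)
    linarith
  have hr1 : 1 - Real.exp (-(2 * σ)) ≤ 1 := by
    have := Real.exp_pos (-(2 * σ))
    linarith
  have hx0 : 0 ≤ (t : ℝ) - D * b := by linarith
  have hE0 := Real.exp_pos (-(2 * σ * ((t : ℝ) - D * b)))
  by_cases hx : A * D * Real.log D ≤ (t : ℝ) - D * b
  · have hE : Real.exp (-(2 * σ * ((t : ℝ) - D * b))) ≤ Real.exp (-(6 * Real.log D)) := by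
      apply Real.exp_le_exp.2
      have h2 : A * s1 = 3 := by
        rw [hA]; field_simp
      have h3 : 3 * Real.log D ≤ σ * (A * D * Real.log D) := by
        have h4 : A * s1 * Real.log D ≤ A * (σ * D) * Real.log D :=
          mul_le_mul_of_nonneg_right (mul_le_mul_of_nonneg_left hs hA0.le) hL.le
        rw [h2] at h4
        linarith
      have h5 : σ * (A * D * Real.log D) ≤ σ * ((t : ℝ) - D * b) :=
        mul_le_mul_of_nonneg_left hx hσ.le
      linarith
    have hbn1 : bn n (pD D σ) b ≤ 1 := by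
      refine hbn.trans (Real.exp_le_one_iff.2 ?_)
      have : 0 ≤ ((b : ℝ) - pD D σ * n) ^ 2 / (4 * n) := by positivity
      linarith
    calc bn n (pD D σ) b * ((1 - Real.exp (-(2 * σ))) * Real.exp (-(2 * σ * ((t : ℝ) - D * b))))
        ≤ 1 * (1 * Real.exp (-(6 * Real.log D))) := by
          refine mul_le_mul hbn1 (mul_le_mul hr1 hE hE0.le zero_le_one)
            (mul_nonneg hr0 hE0.le) zero_le_one
      _ = Real.exp (-(6 * Real.log D)) := by ring
  · have hx' : (t : ℝ) - D * b < A * D * Real.log D := not_le.1 hx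
    set L := Real.log (D : ℝ) with hLdef
    have hsL : Real.sqrt L ^ 2 = L := Real.sq_sqrt hL.le
    have hsD : Real.sqrt D ^ 2 = D := Real.sq_sqrt hD0.le
    have hsL0 : 0 < Real.sqrt L := Real.sqrt_pos.2 hL
    have hsD0 : 0 < Real.sqrt D := Real.sqrt_pos.2 hD0
    have hAs : A * Real.sqrt L ≤ Real.sqrt D := by
      apply Real.le_sqrt_of_sq_le
      rw [mul_pow, hsL]
      exact hDA
    have hpow : (D : ℝ) ^ (3 / 2 : ℝ) = D * Real.sqrt D := by
      rw [Real.sqrt_eq_rpow, show (3 / 2 : ℝ) = 1 + 1 / 2 by norm_num, Real.rpow_add hD0,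
        Real.rpow_one]
    rw [hpow] at ht
    have hAL : A * D * L ≤ Real.sqrt L * (D * Real.sqrt D) := by
      have h2 : A * D * L = (A * Real.sqrt L) * (D * Real.sqrt L) := by
        nth_rewrite 1 [← hsL]
        ring
      rw [h2]
      calc (A * Real.sqrt L) * (D * Real.sqrt L) ≤ Real.sqrt D * (D * Real.sqrt L) :=
            mul_le_mul_of_nonneg_right hAs (by positivity)
        _ = Real.sqrt L * (D * Real.sqrt D) := by ring
    have h3 : 9 * Real.sqrt L * (D * Real.sqrt D) < |(D : ℝ) * b - D * (pD D σ * n)| := by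
      have h4 : |(t : ℝ) - D * (pD D σ * n)| ≤ |(D : ℝ) * b - D * (pD D σ * n)| +
          |(t : ℝ) - D * b| := by
        have h5 : (t : ℝ) - D * (pD D σ * n) = ((D : ℝ) * b - D * (pD D σ * n)) + ((t : ℝ) - D * b) := by
          ring
        rw [h5]
        exact abs_add_le _ _
      rw [abs_of_nonneg hx0] at h4
      linarith
    have h5 : 9 * Real.sqrt L * Real.sqrt D < |(b : ℝ) - pD D σ * n| := by
      have h6 : (D : ℝ) * b - D * (pD D σ * n) = D * ((b : ℝ) - pD D σ * n) := by ring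
      rw [h6, abs_mul, abs_of_pos hD0] at h3
      have h7 : 9 * Real.sqrt L * (D * Real.sqrt D) = D * (9 * Real.sqrt L * Real.sqrt D) := by ring
      rw [h7] at h3
      exact lt_of_mul_lt_mul_left h3 hD0.le
    have h6 : 81 * L * D ≤ ((b : ℝ) - pD D σ * n) ^ 2 := by
      have h7 : (9 * Real.sqrt L * Real.sqrt D) ^ 2 ≤ |(b : ℝ) - pD D σ * n| ^ 2 :=
        pow_le_pow_left₀ (by positivity) h5.le 2
      rw [sq_abs, mul_pow, mul_pow, hsL, hsD] at h7
      linarith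
    have h7 : 6 * L ≤ ((b : ℝ) - pD D σ * n) ^ 2 / (4 * n) := by
      rw [le_div_iff₀ (by positivity)]
      have h8 : L * n ≤ L * D := mul_le_mul_of_nonneg_left hnD' hL.le
      nlinarith
    have hbn2 : bn n (pD D σ) b ≤ Real.exp (-(6 * L)) :=
      hbn.trans (Real.exp_le_exp.2 (by linarith))
    have hE1 : Real.exp (-(2 * σ * ((t : ℝ) - D * b))) ≤ 1 := by
      apply Real.exp_le_one_iff.2
      have : 0 ≤ 2 * σ * ((t : ℝ) - D * b) := by positivity
      linarith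
    calc bn n (pD D σ) b * ((1 - Real.exp (-(2 * σ))) * Real.exp (-(2 * σ * ((t : ℝ) - D * b))))
        ≤ Real.exp (-(6 * L)) * (1 * 1) := by
          refine mul_le_mul hbn2 (mul_le_mul hr1 hE1 hE0.le zero_le_one)
            (mul_nonneg hr0 hE0.le) (Real.exp_pos _).le
      _ = Real.exp (-(6 * L)) := by ring

theorem gp_beta3 (h1 : S_bin3) : Pool.Agent.H174.GP.S_beta3 := by
  intro s1 s2 hs1 _hs2
  obtain ⟨D1, hD1⟩ := b3_large (3 / s1)
  refine ⟨max D1 2, fun D hD σ hσ hs _ n t hn hnD ht => ?_⟩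
  have hD2 : 2 ≤ D := le_trans (le_max_right _ _) hD
  have hDA := hD1 D (le_trans (le_max_left _ _) hD)
  have hD2' : (2 : ℝ) ≤ D := by exact_mod_cast hD2
  have hD0 : (0 : ℝ) < D := by linarith
  have hterm : ∀ b ∈ Finset.range (n + 1), (if D * b ≤ t then
      bn n (pD D σ) b * ((1 - Real.exp (-(2 * σ))) * Real.exp (-(2 * σ * ((t : ℝ) - D * b)))) else 0)
        ≤ Real.exp (-(6 * Real.log D)) := by
    intro b _
    split_ifs with hb
    · exact b3_term h1 hs1 hσ rfl hD2 hDA hs hn hnD ht hb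
    · exact (Real.exp_pos _).le
  have hsum := Finset.sum_le_card_nsmul _ _ _ hterm
  rw [Finset.card_range, nsmul_eq_mul] at hsum
  have hbeta : beta D σ n t ≤ ((n + 1 : ℕ) : ℝ) * Real.exp (-(6 * Real.log D)) := hsum
  refine hbeta.trans ?_
  have hnD' : ((n + 1 : ℕ) : ℝ) ≤ D * D := by
    have : ((n : ℕ) : ℝ) ≤ D := by exact_mod_cast hnD
    push_cast
    nlinarith
  have h6 : Real.exp (-(6 * Real.log D)) = (D : ℝ) ^ (-6 : ℝ) := by
    rw [Real.rpow_def_of_pos hD0]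
    congr 1
    ring
  rw [h6]
  calc ((n + 1 : ℕ) : ℝ) * (D : ℝ) ^ (-6 : ℝ) ≤ (D * D) * (D : ℝ) ^ (-6 : ℝ) :=
        mul_le_mul_of_nonneg_right hnD' (Real.rpow_nonneg hD0.le _)
    _ = (D : ℝ) ^ (-4 : ℝ) := by
        have h7 : (D : ℝ) * D = (D : ℝ) ^ (2 : ℝ) := by
          rw [Real.rpow_two]; ring
        rw [h7, ← Real.rpow_add hD0]
        norm_num

end Pool.Agent.H230.GP174
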