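import Pool.Agent.H174.GP.StA

set_option autoImplicit false

open Finset

namespace Pool.Agent.H230.GP174.Prod1

theorem geom (Q : ℝ) (d : ℕ) : (∑ j ∈ Icc 1 d, Q ^ j) * (1 - Q) = Q - Q ^ (d + 1) := by
  induction d with
  | zero => simp
  | succ d ih =>
    rw [Finset.sum_Icc_succ_top (by omega), add_mul, ih]
    ring

theorem zeta2 : HasSum (fun n : ℕ => 1 / ((n : ℝ) + 1) ^ 2) (Real.pi ^ 2 / 6) := by
  have h := (hasSum_nat_add_iff' 1).2 hasSum_zeta_two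
  have e : Real.pi ^ 2 / 6 - ∑ i ∈ range 1, (1 : ℝ) / ((i : ℕ) : ℝ) ^ 2 = Real.pi ^ 2 / 6 := by simp
  rw [e] at h
  have e2 : (fun n : ℕ => 1 / ((n : ℝ) + 1) ^ 2) = fun n : ℕ => (1 : ℝ) / (((n + 1 : ℕ) : ℝ)) ^ 2 := by
    funext n
    push_cast
    rfl
  rw [e2]
  exact h

theorem small (s : ℝ) (hs : 0 < s) : Real.exp (-s) ≤ (1 / s) * (1 - Real.exp (-s)) := by
  have h1 : s + 1 ≤ Real.exp s := Real.add_one_le_exp s
  have h2 : Real.exp (-s) * Real.exp s = 1 := by rw [← Real.exp_add]; simp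
  have h3 : 0 < Real.exp (-s) := Real.exp_pos _
  rw [one_div, ← div_eq_inv_mul, le_div_iff₀ hs]
  nlinarith

end Pool.Agent.H230.GP174.Prod1

namespace Pool.Agent.H230.GP174

open Prod1 in
theorem gp_prod1 : Pool.Agent.H174.GP.S_prod1 := by
  intro d t ht
  have hq : ∀ j ∈ Icc 1 d, 0 < 1 - Real.exp (-(t * j)) := by
    intro j hj
    have hj1 : (1 : ℝ) ≤ j := by exact_mod_cast (mem_Icc.1 hj).1
    have : Real.exp (-(t * j)) < 1 := by
      rw [Real.exp_lt_one_iff]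
      nlinarith
    linarith
  have h1 : ∏ j ∈ Icc 1 d, (1 / (1 - Real.exp (-(t * j)))) =
      Real.exp (∑ j ∈ Icc 1 d, -Real.log (1 - Real.exp (-(t * j)))) := by
    rw [Real.exp_sum]
    refine prod_congr rfl fun j hj => ?_
    rw [Real.exp_neg (Real.log (1 - Real.exp (-(t * j)))), Real.exp_log (hq j hj), one_div]
  rw [h1]
  refine Real.exp_le_exp.2 ?_
  have h2 : HasSum (fun n : ℕ => ∑ j ∈ Icc 1 d, (Real.exp (-(t * j))) ^ (n + 1) / ((n : ℝ) + 1))
      (∑ j ∈ Icc 1 d, -Real.log (1 - Real.exp (-(t * j)))) := by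
    refine hasSum_sum fun j hj => Real.hasSum_pow_div_log_of_abs_lt_one ?_
    rw [abs_of_pos (Real.exp_pos _)]
    linarith [hq j hj]
  have h3 : HasSum (fun n : ℕ => (1 / t) * (1 / ((n : ℝ) + 1) ^ 2)) ((1 / t) * (Real.pi ^ 2 / 6)) :=
    zeta2.mul_left _
  have h4 : (∑ j ∈ Icc 1 d, -Real.log (1 - Real.exp (-(t * j)))) ≤ (1 / t) * (Real.pi ^ 2 / 6) := by
    refine hasSum_le (fun n => ?_) h2 h3
    have hn : (0 : ℝ) < (n : ℝ) + 1 := by positivity
    have hs : 0 < t * ((n : ℝ) + 1) := by positivity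
    set Q : ℝ := Real.exp (-(t * ((n : ℝ) + 1))) with hQ
    have hQ0 : 0 < Q := Real.exp_pos _
    have hQ1 : 0 < 1 - Q := by
      have : Q < 1 := by
        rw [hQ, Real.exp_lt_one_iff]
        linarith
      linarith
    have e : ∀ j ∈ Icc 1 d, (Real.exp (-(t * j))) ^ (n + 1) / ((n : ℝ) + 1) =
        Q ^ j / ((n : ℝ) + 1) := by
      intro j _
      rw [hQ, ← Real.exp_nat_mul, ← Real.exp_nat_mul]
      congr 2
      push_cast
      ring
    rw [sum_congr rfl e, ← sum_div]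
    have h5 : ∑ j ∈ Icc 1 d, Q ^ j ≤ 1 / (t * ((n : ℝ) + 1)) := by
      have h6 := geom Q d
      have h7 := small _ hs
      rw [← hQ] at h7
      have h8 : (∑ j ∈ Icc 1 d, Q ^ j) * (1 - Q) ≤ (1 / (t * ((n : ℝ) + 1))) * (1 - Q) := by
        have : 0 < Q ^ (d + 1) := by positivity
        linarith
      exact le_of_mul_le_mul_right h8 hQ1
    calc (∑ j ∈ Icc 1 d, Q ^ j) / ((n : ℝ) + 1) ≤ (1 / (t * ((n : ℝ) + 1))) / ((n : ℝ) + 1) :=
          div_le_div_of_nonneg_right h5 hn.le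
      _ = (1 / t) * (1 / ((n : ℝ) + 1) ^ 2) := by field_simp
  refine h4.trans ?_
  have hpi : Real.pi ^ 2 / 6 ≤ 2 := by
    have := Real.pi_lt_d2
    have := Real.pi_pos
    nlinarith
  calc (1 / t) * (Real.pi ^ 2 / 6) ≤ (1 / t) * 2 := mul_le_mul_of_nonneg_left hpi (by positivity)
    _ = 2 / t := by ring

end Pool.Agent.H230.GP174
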